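import Pool.Agent.Lib.MP_f23696_ag.C.Fin

/-!
Lower semicontinuity of minimal log discrepancies for all normal affine varieties with a torus
action of complexity one (arbitrary quotient curve, any dimension), with an invariant effective
boundary.  The definitions are in `Pool.Agent.Lib.MP_f23696_ag.Defs` and
`Pool.Agent.Lib.MP_f23696_ag.DefsC`.
-/

namespace Pool.Agent.Results.MP_f23696_ag.ComplexityOneCurves

open Pool.Agent.MLD

universe u v

/-- `K` is the function field of `X = Spec A`, `K₀` the field of invariants of the torus, a function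
field of one variable over `k`; `K = K₀(y_1, …, y_m)`, where `y_i` (`i ≥ 1`) are semi-invariant
rational functions whose weights are a basis of the character group; `Δ = ∑ δ(p) V(p)` is a torus
invariant effective `ℝ`-divisor with `K_X + Δ` `ℝ`-Cartier.  Then `mld_(X,Δ)` is lower
semicontinuous on the closed points of `X`. -/
theorem result {k : Type u} {K : Type v} [Field k] [IsAlgClosed k] [CharZero k] [Field K]
    [Algebra k K] {m : ℕ} (K₀ : IntermediateField k K) (y : Fin (m + 1) → K)
    (hind : AlgebraicIndependent k y) (hy0 : y 0 ∈ K₀) (hfg : K₀.FG)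
    (halg : ∀ g ∈ K₀, IsAlgebraic (IntermediateField.adjoin k {y 0}) g)
    (hgen : IntermediateField.adjoin k ((K₀ : Set K) ∪ Set.range y) = ⊤)
    (D : Fin (m + 1) → Derivation k K K) (hD : ∀ i j, D i (y j) = if i = j then 1 else 0)
    (A : Subalgebra k K) (hA : ∃ S : Finset K, (∀ f ∈ S, IsSemiInvC K₀ y f) ∧
      Algebra.adjoin k (S : Set K) = A)
    [IsFractionRing A K] [IsIntegrallyClosed A]
    (δ : Ideal A →₀ ℝ) (hδ0 : ∀ p, 0 ≤ δ p)
    (hδ : ∀ p, δ p ≠ 0 → IsHeightOne p ∧ IsInvIdealC K₀ y p)
    (hRC : ∀ x : MaximalSpectrum A, ∃ γ : Kˣ →₀ ℝ, IsLocalEq A D δ x.asIdeal γ) :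
    LowerSemicontinuous (mld A D δ) :=
  Pool.Agent.MLD.C.final K₀ y hind hy0 hfg halg hgen D hD A hA δ hδ0 hδ hRC

end Pool.Agent.Results.MP_f23696_ag.ComplexityOneCurves
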