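import Pool.Agent.Lib.MP_f23696_ag.M2.Fin2

/-!
Lower semicontinuity of minimal log discrepancies for normal `G × G`-equivariant embeddings of
`G = ∏ GL_(n_i)` with a `G × G`-invariant effective boundary (any dimension, `X` not necessarily
affine).  The definitions are in `Pool.Agent.Lib.MP_f23696_ag.Defs`,
`Pool.Agent.Lib.MP_f23696_ag.M.Defs` and `Pool.Agent.Lib.MP_f23696_ag.M2.Defs`.
-/

open scoped Polynomial

namespace Pool.Agent.Results.MP_f23696_ag.GroupEmbeddings

open Pool.Agent.MLD Pool.Agent.MLD.Mon

universe u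

/-- `g` is the generic block diagonal matrix with the blocks of constancy of `b` (block sizes
`n_1, n_2, …`), its entries `g p q`, `b p = b q`, numbered by `e`, are algebraically independent
and generate the field `K`, the function field of `G = ∏ GL_(n_i)`; `D` are the partial
derivatives with respect to them.  `X = Proj T`, where `T` is a normal finitely generated graded
subalgebra of `K[t]` which is stable under all translations `g ↦ a g c`, `a, c ∈ G(k)` (acting on
the coefficients), `v t ∈ T` is an element of degree one and `Spec A` is the open subset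
`v t ≠ 0` of `X`; its function field is `K`.  `Δ = ∑ δ(p) V(p)` is an effective `ℝ`-divisor on
`Spec A` invariant under the translations (only the values of `δ` at the primes of height one
matter) and `x` is a closed point of `Spec A` at which `K_X + Δ` is `ℝ`-Cartier.  Then
`mld_(X,Δ)` is lower semicontinuous at `x`, as a function on the closed points.
If `Y = Spec R` is affine, then `T = R[t]`, `v = 1` gives `A = R`, `X = Y`. -/
theorem result {k K : Type u} [Field k] [IsAlgClosed k] [CharZero k] [Field K]
    [Algebra k K] {N m : ℕ} (b : Fin N → ℕ) (hb : Monotone b)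
    (g : Matrix (Fin N) (Fin N) K) (hg : ∀ p q, b p ≠ b q → g p q = 0)
    (e : Fin (m + 1) ≃ {s : Fin N × Fin N // b s.1 = b s.2})
    (hind : AlgebraicIndependent k fun i => g (e i).1.1 (e i).1.2)
    (hgen : IntermediateField.adjoin k (Set.range fun i => g (e i).1.1 (e i).1.2) = ⊤)
    (D : Fin (m + 1) → Derivation k K K)
    (hD : ∀ i j, D i (g (e j).1.1 (e j).1.2) = if i = j then 1 else 0)
    (T : Subalgebra k K[X]) (hfg : T.FG) [IsIntegrallyClosed T]
    (hgr : ∀ F ∈ T, ∀ n, Polynomial.monomial n (F.coeff n) ∈ T)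
    (hT : ∀ σ : K ≃ₐ[k] K, IsTranslation b g σ → ∀ F ∈ T, F.map (σ : K →+* K) ∈ T)
    (v : K) (hv : v ≠ 0) (hvT : Polynomial.monomial 1 v ∈ T)
    (A : Subalgebra k K) (hA : ∀ a, a ∈ A ↔ ∃ n : ℕ, Polynomial.monomial n (a * v ^ n) ∈ T)
    [IsFractionRing A K]
    (δ : Ideal A →₀ ℝ) (hδ0 : ∀ p, 0 ≤ δ p)
    (hδ : ∀ σ : K ≃ₐ[k] K, IsTranslation b g σ → ∀ p q : Ideal A, IsHeightOne p →
      IsHeightOne q → MapsLocal σ p q → δ p = δ q)
    (x : MaximalSpectrum A) (hRC : ∃ γ : Kˣ →₀ ℝ, IsLocalEq A D δ x.asIdeal γ) :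
    LowerSemicontinuousAt (mld A D δ) x :=
  final2 b hb g hg e hind hgen D hD T hfg hgr hT v hv hvT A hA δ hδ0 hδ x hRC

end Pool.Agent.Results.MP_f23696_ag.GroupEmbeddings
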