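import Pool.Agent.Lib.MP_f23696_ag.H.Fin

/-!
Lower semicontinuity of minimal log discrepancies for all normal affine horospherical varieties of
type A (products of general linear groups and tori), with an invariant effective boundary.  The
definitions are in `Pool.Agent.Lib.MP_f23696_ag.Defs` and `Pool.Agent.Lib.MP_f23696_ag.H.Defs`.
-/

namespace Pool.Agent.Results.MP_f23696_ag.Horospherical

open Pool.Agent.MLD Pool.Agent.MLD.H

universe u v

/-- `K = k(M, x)` is the function field of the horospherical variety `X = Spec A` of the finitely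
generated weight monoid `Γ ⊆ ℤ^m`: `Λ c u` is the coefficient of the degree `u` at the fundamental
weight `c`, `M` are the coordinates of the big cell of the flag variety, `x^u` the highest weight
vectors, `A` is the sum of the spaces `x^u ∏ (minors of kind c)^(Λ c u)`, `u ∈ Γ`.
`Δ = ∑ δ(p) V(p)` is an effective `ℝ`-divisor stable under the group, `K_X + Δ` is `ℝ`-Cartier.
Then `mld_(X,Δ)` is lower semicontinuous on the closed points of `X`. -/
theorem result {k : Type u} {K : Type v} [Field k] [IsAlgClosed k] [CharZero k] [Field K]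
    [Algebra k K] {B : Type} [Fintype B] (n : B → ℕ) (κ : Finset (Σ b, Fin (n b))) {m : ℕ}
    (Γ : AddSubmonoid (Fin m → ℤ)) (hΓ : Γ.FG) (Λ : (Σ b, Fin (n b)) → Fin m → ℤ)
    (hΛ : ∀ c ∈ κ, (∀ u ∈ Γ, 0 ≤ Λ c ⬝ᵥ u) ∧ ∃ u ∈ Γ, 0 < Λ c ⬝ᵥ u)
    (M : Pos n κ → K) (x : Fin m → K) (hind : AlgebraicIndependent k (Sum.elim M x))
    (hgen : IntermediateField.adjoin k (Set.range M ∪ Set.range x) = ⊤)
    {N : ℕ} (e : Fin (N + 1) ≃ Pos n κ ⊕ Fin m) (D : Fin (N + 1) → Derivation k K K)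
    (hD : ∀ i j, D i (Sum.elim M x (e j)) = if i = j then 1 else 0)
    [IsFractionRing (coordRing k κ Λ Γ M x) K] [IsIntegrallyClosed (coordRing k κ Λ Γ M x)]
    (δ : Ideal (coordRing k κ Λ Γ M x) →₀ ℝ) (hδ0 : ∀ p, 0 ≤ δ p)
    (hδ : ∀ p, δ p ≠ 0 → IsHeightOne p ∧ IsStable κ Λ Γ M x p)
    (hRC : ∀ p : MaximalSpectrum (coordRing k κ Λ Γ M x), ∃ γ : Kˣ →₀ ℝ,
      IsLocalEq (coordRing k κ Λ Γ M x) D δ p.asIdeal γ) :
    LowerSemicontinuous (mld (coordRing k κ Λ Γ M x) D δ) :=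
  Pool.Agent.MLD.H.final n κ Γ hΓ Λ hΛ M x hind hgen e D hD δ hδ0 hδ hRC

end Pool.Agent.Results.MP_f23696_ag.Horospherical
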