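import Pool.Agent.Lib.MP_f23696_ag.Z.LciM
import Pool.Agent.Lib.MP_f23696_ag.Z.GoodOf

/-!
Lower semicontinuity of minimal log discrepancies, with an arbitrary effective boundary, for the
quotients by finite groups, free in codimension one, of normal varieties whose rings of sections of
some Weil divisors (for instance the Cox ring) are locally complete intersections.

The definitions are in `Pool.Agent.Lib.MP_f23696_ag.Defs` (`DVal`, `IsDivisorial`, `HasCenter`,
`FormOrd`, `IsHeightOne`, `IsLocalEq`, `logDiscs`, `mld`), `Pool.Agent.Lib.MP_f23696_ag.Y.MldP`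
(`logDiscsP`, `mldP`), `Pool.Agent.Lib.MP_f23696_ag.Y.CoxD` (`IsSec`) and
`Pool.Agent.Lib.MP_f23696_ag.Z.CDefs` (`intCl`, `relI`, `HasLCIRing`).
-/

set_option autoImplicit false

namespace Pool.Agent.Results.MP_f23696_ag.Quotients

open Pool.Agent.MLD Pool.Agent.MLD.Cox

universe u v

/-- `X = Spec A` is a normal affine variety of dimension `m + 1` over the algebraically closed field
`k` of characteristic `0`, with function field `K`; `y` is a transcendence basis of `K/k` and
`D_i = ∂/∂y_i`.  `L/K` is a finite Galois extension with group `G`, and the normalization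
`Y = Spec (intCl A L)` of `X` in `L`, with `Y/G = X`, is unramified over `X` in codimension one
(`hur`: a valuation with centre a prime divisor of `Y` takes the value `1` on `K`).  For every
cyclic
subgroup `⟨g⟩` of `G` the variety `Y/⟨g⟩` satisfies `HasLCIRing`: it has (near every closed point)
Weil divisors `E_1, …, E_h` with a ring of sections `⊕_(β ∈ ℤ^h) H^0(Y/⟨g⟩, O(∑ β_l E_l))` which is
finitely generated and locally a complete intersection.
`Δ = ∑ δ(q) V(q)` is an effective `ℝ`-divisor on `X` and `K_X + Δ` is `ℝ`-Cartier at the closed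
point
`x`.  Then `mld(x) ≤ mld(η) + dim W` for every irreducible closed subset `W = V(q)` with generic
point `η` which contains `x`. -/
theorem result {k : Type u} {K L : Type v} [Field k] [IsAlgClosed k] [CharZero k] [Field K]
    [Field L] [Algebra k K] [Algebra k L] [Algebra K L] [IsScalarTower k K L]
    [FiniteDimensional K L] [IsGalois K L] {m : ℕ} (y : Fin (m + 1) → K)
    (hy : IsTranscendenceBasis k y) (D : Fin (m + 1) → Derivation k K K)
    (hD : ∀ i j, D i (y j) = if i = j then 1 else 0)
    (A : Subalgebra k K) (hfg : A.FG) [IsFractionRing A K] [IsIntegrallyClosed A]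
    (hur : ∀ P : Ideal (intCl A L), IsHeightOne P → ∀ w : DVal k L,
      w.HasCenter (intCl A L) P → ∃ b : K, b ≠ 0 ∧ w.ord (algebraMap K L b) = 1)
    (hlci : ∀ g : L ≃ₐ[K] L,
      HasLCIRing (intCl A (IntermediateField.fixedField (Subgroup.zpowers g))) (m + 1))
    (δ : Ideal A →₀ ℝ) (hδ : ∀ p, 0 ≤ δ p) (x : MaximalSpectrum A)
    (hRC : ∃ γ : Kˣ →₀ ℝ, IsLocalEq A D δ x.asIdeal γ) (q : Ideal A) (hq : q.IsPrime)
    (hqx : q ≤ x.asIdeal) :
    ∃ d : ℕ, ringKrullDim (A ⧸ q) = d ∧ mld A D δ x ≤ mldP A D δ q + (d : EReal) :=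
  lciMain A (goodOf A hfg) hur y hy D hD hlci δ hδ x hRC q hq hqx

end Pool.Agent.Results.MP_f23696_ag.Quotients
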